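import Pool.Agent.R460.SB.Leg

set_option autoImplicit false

/-!
# Primes of the form `n² + a` for almost all `a` in every residue class of every modulus

For every modulus `q ≤ X ^ (1 / 2 - ρ)` with at most `(log X)^T` divisors, without any exceptional moduli, and every
residue class `b` modulo `q` with `gcd(b, q) ≤ (log X)^T`, all but at most `X / (q (log X)^A)` of the integers `a`,
`|a| ≤ X`, `a ≡ b (mod q)`, satisfy the asymptotic formula of Hardy and Littlewood for the number of the primes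
`|n² + a|`, `n ≤ y`, with an error `√X / (log X)^C`, simultaneously for all `y ≤ √X`.

Proof (project `R460/SB`): the circle method in the class. The variance over the class of the number of the
solutions of `l + α m² + γ m = a`, weighted with the difference of the von Mangoldt function and a sieve model, is
expressed by exponential sums over `m` and `l` in residue classes modulo `q`. On the minor arcs the sum over `m` is
estimated by Weyl's method on average over the classes; on the major arcs the modulus is lifted to `k q` and the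
characters modulo `k q` are separated into a few bad ones of large conductor, for which the complete sums of
`χ(a - α m² - γ m)` are small, and the others, for which the sum over `l` is small on average.
-/

namespace Pool.Agent.Results.MP_391708_nt.AlmostAllShiftsInClasses

open Finset

/-- The constant `h_a`, with the product truncated at `z`. -/
noncomputable def h (a : ℤ) (z : ℕ) : ℝ :=
  ∏ w ∈ (Icc 3 z).filter Nat.Prime, (1 - (jacobiSym (-a) w : ℝ) / ((w : ℝ) - 1))

/-- The sum of `log |n² + a|` over the `n`, `1 ≤ n ≤ y`, for which `|n² + a|` is prime. -/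
noncomputable def theta (a : ℤ) (y : ℕ) : ℝ :=
  ∑ n ∈ Icc 1 y, if ((n : ℤ) ^ 2 + a).natAbs.Prime then Real.log (((n : ℤ) ^ 2 + a).natAbs : ℝ) else 0

/-- The conclusion for one integer `a`: there is a prime `|n² + a|` with `1 ≤ n ≤ √X`, and for all
`y ≤ √X` the primes `|n² + a|`, `n ≤ y`, are counted by the formula of Hardy and Littlewood. -/
def Good (C X z : ℕ) (a : ℤ) : Prop :=
  (∃ n : ℕ, 1 ≤ n ∧ n ^ 2 ≤ X ∧ ((n : ℤ) ^ 2 + a).natAbs.Prime) ∧
  ∀ y : ℕ, y ^ 2 ≤ X → |theta a y - h a z * y| ≤ Real.sqrt X / Real.log X ^ C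

open Classical in
/-- The number of the integers `a`, `|a| ≤ X`, `a ≡ b (mod q)`, for which the conclusion fails. -/
noncomputable def exceptions (C X z q : ℕ) (b : ℤ) : ℕ :=
  ((Icc (-(X : ℤ)) X).filter (fun a : ℤ => a ≡ b [ZMOD q] ∧ ¬ Good C X z a)).card

theorem result (ρ : ℝ) (hρ : 0 < ρ) (A C T : ℕ) :
    ∃ B : ℕ, ∀ E : ℕ, ∃ X₀ : ℕ, ∀ X : ℕ, X₀ ≤ X →
      ∀ z : ℕ, Real.log X ^ B ≤ z → (z : ℝ) ≤ Real.log X ^ E →
      ∀ q : ℕ, 1 ≤ q → (q : ℝ) ≤ (X : ℝ) ^ (1 / 2 - ρ) → (q.divisors.card : ℝ) ≤ Real.log X ^ T →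
      ∀ b : ℤ, (Int.gcd b q : ℝ) ≤ Real.log X ^ T →
        (exceptions C X z q b : ℝ) ≤ X / (q * Real.log X ^ A) := by
  classical
  obtain ⟨B, hB⟩ := Pool.Agent.R460.SB.fin_sb (α := -1) (γ := 0) (by norm_num) ρ hρ A C (T + 1)
  refine ⟨B, fun E => ?_⟩
  obtain ⟨X₀, h0⟩ := hB E
  obtain ⟨X₁, h1⟩ := Filter.eventually_atTop.1 (Pool.Agent.Y614.GJ.Core.ev_log 1 (s := 1) (by norm_num) 4)
  refine ⟨X₀ + X₁, fun X hX z hz1 hz2 q hq1 hqX hτ b hb => ?_⟩
  have hL4 := (h1 X (by omega)).1
  have hL1 : 1 ≤ Real.log X := by linarith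
  have h2 := h0 X (by omega) z hz1 hz2 q hq1 hqX
    (hτ.trans (pow_le_pow_right₀ hL1 (by omega))) b (by
      have e1 : Int.gcd (4 * -1 * b + 0 ^ 2) q ≤ 4 * Int.gcd b q := by
        have e2 : (4 * -1 * b + 0 ^ 2 : ℤ) = -(4 * b) := by ring
        rw [e2, Int.neg_gcd]
        unfold Int.gcd
        rw [Int.natAbs_mul, Int.natAbs_natCast, Nat.gcd_comm, Nat.gcd_comm b.natAbs]
        have e3 := Nat.gcd_mul_right_dvd_mul_gcd q (4 : ℤ).natAbs b.natAbs
        have e4 : 0 < Nat.gcd q (4 : ℤ).natAbs * Nat.gcd q b.natAbs :=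
          Nat.mul_pos (Nat.gcd_pos_of_pos_left _ hq1) (Nat.gcd_pos_of_pos_left _ hq1)
        refine (Nat.le_of_dvd e4 e3).trans ?_
        apply Nat.mul_le_mul_right
        exact Nat.gcd_le_right _ (by norm_num)
      have e5 : ((Int.gcd (4 * -1 * b + 0 ^ 2) q : ℕ) : ℝ) ≤ 4 * (Int.gcd b q : ℝ) := by exact_mod_cast e1
      refine e5.trans ?_
      rw [pow_succ, mul_comm]
      exact mul_le_mul hb hL4 (by norm_num) (by positivity))
  refine le_trans (le_of_eq ?_) h2
  unfold exceptions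
  have hf : ∀ (a : ℤ) (n : ℕ), Pool.Agent.R460.SB.fv (-1) 0 a n = (n : ℤ) ^ 2 + a := by
    intro a n
    unfold Pool.Agent.R460.SB.fv
    ring
  have hlocal : ∀ a : ℤ, ∀ p : ℕ, p.Prime → ∃ m : ℕ, ¬ (p : ℤ) ∣ Pool.Agent.R460.SB.fv (-1) 0 a m := by
    intro a p hp
    by_contra hno
    push Not at hno
    have k0 := hno 0
    have k1 := hno 1
    rw [hf] at k0 k1
    have k2 := dvd_sub k1 k0
    norm_num at k2
    have := Int.le_of_dvd one_pos k2
    have := hp.two_le
    omega
  have hg : ∀ a : ℤ, Good C X z a ↔ Pool.Agent.R460.SB.GoodF (-1) 0 C X z a := by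
    intro a
    unfold Good Pool.Agent.R460.SB.GoodF
    have e1 : ∀ y : ℕ, ∑ m ∈ Icc 1 y, Pool.Agent.R460.SQ.thp (Pool.Agent.R460.SB.fv (-1) 0 a m).natAbs = theta a y := by
      intro y
      unfold theta Pool.Agent.R460.SQ.thp
      exact sum_congr rfl fun m _ => by rw [hf]
    have e2 : Pool.Agent.R460.SB.Sz (-1) 0 a z = h a z := Pool.Agent.R460.SB.Sz_leg a z
    simp only [e1, e2, hf]
    constructor
    · rintro ⟨k1, k2⟩
      exact ⟨fun _ => k1, k2⟩
    · rintro ⟨k1, k2⟩
      refine ⟨k1 fun p hp => ?_, k2⟩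
      obtain ⟨m, hm⟩ := hlocal a p hp
      rw [hf] at hm
      exact ⟨m, hm⟩
  congr 2
  ext n
  rw [mem_filter, mem_filter, hg]

end Pool.Agent.Results.MP_391708_nt.AlmostAllShiftsInClasses
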