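import Pool.Agent.R460.SB.UnW
import Pool.Agent.R460.GQ.Tup

set_option autoImplicit false

/-!
# The quantitative Hypothesis H for quadratic polynomials and for pairs of linear polynomials, for almost all constant
# terms in every residue class of every modulus

Part 1 (`F = {a n² + b n + c}`). Fix integers `a > 0` and `b`. For every modulus `q ≤ X ^ (1 / 2 - ρ)` with at most
`(log X)^T` divisors, without any exceptional moduli, and every residue class `c₀` modulo `q` with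
`gcd(b² - 4 a c₀, q) ≤ (log X)^T`, all but at most `X / (q (log X)^A)` of the integers `1 ≤ c ≤ X`, `c ≡ c₀ (mod q)`,
satisfy: for all `y ≤ √X` the number `π_F(y)` differs by at most `√X / (log X)^C` from the predicted
`C_F ∑_{n ≤ y} 1 / log f(n)`, where the Euler product `C_F` is truncated at a power of `log X`.

Part 2 (`F = {n, n + h}`). For every modulus `q ≤ x ^ (2 / 3 - ρ)` and every residue class `b` modulo `q` with
`gcd(b, q) ≤ (log x)^T`, all but at most `x / (q (log x)^A)` of the even `0 < h ≤ x / (log x)^(C + 7)`, `h ≡ b (mod q)`,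
satisfy `|π_F(y) - C_F ∫_2^y dt / (log t)^2| ≤ x / (log x)^C` for all `2 ≤ y ≤ x`.

Definition used: `Pool.Agent.H560R3.GB.C₂`, the twin prime constant `∏_{p > 2} (1 - 1 / (p - 1) ^ 2)`
(the infimum of the partial products).

Proof: `R460/SB` (quadratic polynomials) and `R460/GQ` (pairs): the circle method inside the residue class.
-/

namespace Pool.Agent.Results.MP_51e72e_nt.QuadraticsAndPairsInClasses

open Finset
open Pool.Agent.H560R3.GB (C₂)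

/-- The quadratic polynomial. -/
def f (a b c : ℤ) (n : ℕ) : ℤ := a * (n : ℤ) ^ 2 + b * (n : ℤ) + c

/-- `ω_F(p)` for `F = {f}`: the number of the roots of `f` modulo `p`. -/
def omega (a b c : ℤ) (p : ℕ) : ℕ := ((range p).filter (fun n : ℕ => (p : ℤ) ∣ f a b c n)).card

/-- The Euler product `C_F` for `F = {f}`, over the primes up to `z`. -/
noncomputable def S (a b c : ℤ) (z : ℕ) : ℝ :=
  ∏ p ∈ (Icc 1 z).filter Nat.Prime, (1 - (omega a b c p : ℝ) / p) / (1 - 1 / (p : ℝ))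

/-- `π_F(y)` for `F = {f}`: the number of the `n`, `1 ≤ n ≤ y`, for which `f(n)` is a prime. -/
def count (a b c : ℤ) (y : ℕ) : ℕ := ((Icc 1 y).filter (fun n : ℕ => (f a b c n).toNat.Prime)).card

/-- The conclusion for one constant term `c`: `π_F(y) = C_F ∑_{n ≤ y} 1 / log f(n)` up to `√X / (log X) ^ C` for all
`y ≤ √X`, and if `F` has no fixed prime divisor, then `f(n)` is prime for some `n ≤ √X`. -/
def Good (a b : ℤ) (C X z : ℕ) (c : ℤ) : Prop :=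
  ((∀ p : ℕ, p.Prime → ∃ n : ℕ, ¬ (p : ℤ) ∣ f a b c n) →
    ∃ n : ℕ, 1 ≤ n ∧ n ^ 2 ≤ X ∧ (f a b c n).toNat.Prime) ∧
  ∀ y : ℕ, y ^ 2 ≤ X →
    |(count a b c y : ℝ) - S a b c z * ∑ n ∈ Icc 1 y, 1 / Real.log ((f a b c n : ℤ) : ℝ)| ≤ Real.sqrt X / Real.log X ^ C

open Classical in
/-- The number of the integers `1 ≤ c ≤ X`, `c ≡ c₀ (mod q)`, for which the conclusion fails. -/
noncomputable def exceptions (a b : ℤ) (C X z q : ℕ) (c₀ : ℤ) : ℕ :=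
  ((Icc 1 (X : ℤ)).filter (fun c : ℤ => c ≡ c₀ [ZMOD q] ∧ ¬ Good a b C X z c)).card

/-- `π_F(y)` for `F = {n, n + h}`: the number of the primes `p ≤ y` such that `p + h` is prime. -/
noncomputable def pairs (h : ℕ) (y : ℝ) : ℕ :=
  ((range (⌊y⌋₊ + 1)).filter (fun p => p.Prime ∧ (p + h).Prime)).card

/-- `C_F` for `F = {n, n + h}`, `h > 0` even. -/
noncomputable def cPair (h : ℕ) : ℝ :=
  2 * C₂ * ∏ p ∈ h.primeFactors.filter (fun p => 2 < p), ((p : ℝ) - 1) / ((p : ℝ) - 2)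

/-- The asymptotic formula for the pair `n, n + h`, with the error bound `x / (log x) ^ C`, for all `y ≤ x`. -/
def GoodPair (C : ℕ) (x : ℝ) (h : ℕ) : Prop :=
  ∀ y : ℝ, 2 ≤ y → y ≤ x → |(pairs h y : ℝ) - cPair h * ∫ t in (2 : ℝ)..y, 1 / Real.log t ^ 2| ≤ x / Real.log x ^ C

/-- The even `0 < h ≤ x / (log x) ^ (C + 7)` with `h ≡ b (mod q)` for which `GoodPair` fails. -/
def exceptionalPairs (C : ℕ) (x : ℝ) (q : ℕ) (b : ℤ) : Set ℕ :=
  {h : ℕ | 0 < h ∧ (h : ℝ) ≤ x / Real.log x ^ (C + 7) ∧ Even h ∧ (h : ℤ) ≡ b [ZMOD q] ∧ ¬ GoodPair C x h}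

theorem quadratics (a b : ℤ) (ha : 0 < a) (ρ : ℝ) (hρ : 0 < ρ) (A C T : ℕ) :
    ∃ B : ℕ, ∀ E : ℕ, ∃ X₀ : ℕ, ∀ X : ℕ, X₀ ≤ X →
      ∀ z : ℕ, Real.log X ^ B ≤ z → (z : ℝ) ≤ Real.log X ^ E →
      ∀ q : ℕ, 1 ≤ q → (q : ℝ) ≤ (X : ℝ) ^ (1 / 2 - ρ) → (q.divisors.card : ℝ) ≤ Real.log X ^ T →
      ∀ c₀ : ℤ, (Int.gcd (b ^ 2 - 4 * a * c₀) q : ℝ) ≤ Real.log X ^ T →
        (exceptions a b C X z q c₀ : ℝ) ≤ X / (q * Real.log X ^ A) := by
  classical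
  obtain ⟨B, hB⟩ := Pool.Agent.R460.SB.fin_unw (b := b) ha ρ hρ A C T
  refine ⟨B, fun E => ?_⟩
  obtain ⟨X₀, h0⟩ := hB E
  refine ⟨X₀, fun X hX z hz1 hz2 q hq1 hqX hτ c₀ hb => ?_⟩
  have h2 := h0 X hX z hz1 hz2 q hq1 hqX hτ c₀ hb
  refine le_trans (le_of_eq ?_) h2
  unfold exceptions
  have hf : ∀ (c : ℤ) (t : ℕ), Pool.Agent.R460.SB.fv (-a) (-b) c t = f a b c t := by
    intro c t
    unfold Pool.Agent.R460.SB.fv f
    ring
  have hr : ∀ (c : ℤ) (p : ℕ), Pool.Agent.H373R2.T7.nuB (Pool.Agent.R460.SB.QS (-a) (-b) c) p = omega a b c p := by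
    intro c p
    unfold omega Pool.Agent.H373R2.T7.nuB Pool.Agent.R460.SB.QS
    have e : ∀ m : ℕ, ((p : ℤ) ∣ c - (-a * (m : ℤ) ^ 2 + -b * (m : ℤ))) ↔ (p : ℤ) ∣ f a b c m := by
      intro m
      have e1 := hf c m
      unfold Pool.Agent.R460.SB.fv at e1
      rw [e1]
    congr 1
    ext m
    simp only [mem_filter, e]
  have hs : ∀ c : ℤ, Pool.Agent.R460.SB.Sz (-a) (-b) c z = S a b c z := by
    intro c
    rw [Pool.Agent.R460.SB.Sz_prod]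
    unfold S Pool.Agent.H373R2.T7.pz
    refine prod_congr rfl fun p _ => ?_
    rw [hr]
  have hg : ∀ c : ℤ, Good a b C X z c ↔ Pool.Agent.R460.SB.GoodU a b C X z c := by
    intro c
    unfold Good Pool.Agent.R460.SB.GoodU count
    simp only [hs, hf]
  congr 2
  ext n
  rw [mem_filter, mem_filter, hg]

theorem result :
    (∀ (a b : ℤ), 0 < a → ∀ ρ : ℝ, 0 < ρ → ∀ A C T : ℕ,
      ∃ B : ℕ, ∀ E : ℕ, ∃ X₀ : ℕ, ∀ X : ℕ, X₀ ≤ X →
        ∀ z : ℕ, Real.log X ^ B ≤ z → (z : ℝ) ≤ Real.log X ^ E →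
        ∀ q : ℕ, 1 ≤ q → (q : ℝ) ≤ (X : ℝ) ^ (1 / 2 - ρ) → (q.divisors.card : ℝ) ≤ Real.log X ^ T →
        ∀ c₀ : ℤ, (Int.gcd (b ^ 2 - 4 * a * c₀) q : ℝ) ≤ Real.log X ^ T →
          (exceptions a b C X z q c₀ : ℝ) ≤ X / (q * Real.log X ^ A)) ∧
    (∀ ρ : ℝ, 0 < ρ → ∀ A C T : ℕ, ∃ x₀ : ℝ, ∀ x : ℝ, x₀ ≤ x →
      ∀ q : ℕ, 1 ≤ q → (q : ℝ) ≤ x ^ (2 / 3 - ρ) → ∀ b : ℤ, (Int.gcd b q : ℝ) ≤ Real.log x ^ T →
        (exceptionalPairs C x q b).Finite ∧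
          ((exceptionalPairs C x q b).ncard : ℝ) ≤ x / (q * Real.log x ^ A)) :=
  ⟨fun a b ha ρ hρ A C T => quadratics a b ha ρ hρ A C T, fun ρ hρ A C T => Pool.Agent.R460.GQ.tup_real ρ hρ A C T⟩

end Pool.Agent.Results.MP_51e72e_nt.QuadraticsAndPairsInClasses
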