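import Pool.Agent.R460.SB.UnW

set_option autoImplicit false

/-!
# The number of the primes `a m² + b m + c` for almost all `c`, in every residue class of every modulus

Fix integers `a > 0` and `b`. For every modulus `q ≤ X ^ (1 / 2 - ρ)` with at most `(log X)^T` divisors, without any
exceptional moduli, and every residue class `c₀` modulo `q` with `gcd(b² - 4 a c₀, q) ≤ (log X)^T`, all but at most
`X / (q (log X)^A)` of the integers `1 ≤ c ≤ X`, `c ≡ c₀ (mod q)`, satisfy: for all `y ≤ √X` the number of the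
`m ≤ y` for which `f(m) = a m² + b m + c` is prime differs by at most `√X / (log X)^C` from the number
`S ∑_{m ≤ y} 1 / log f(m)` which Hardy and Littlewood (Bateman and Horn) predict. In particular a value `f(m)`,
`m ≤ √X`, is prime if no prime divides all the values.

Proof: `R460/SB` (see `Results/MP_a17b09_nt/AlmostAllConstantTerms`) and partial summation.
-/

namespace Pool.Agent.Results.MP_a1177c_nt.AlmostAllConstantTerms

open Finset

/-- The polynomial. -/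
def f (a b c : ℤ) (m : ℕ) : ℤ := a * (m : ℤ) ^ 2 + b * (m : ℤ) + c

/-- The number of the roots of `f` modulo `p`. -/
def omega (a b c : ℤ) (p : ℕ) : ℕ := ((range p).filter (fun m : ℕ => (p : ℤ) ∣ f a b c m)).card

/-- The Bateman–Horn constant of `f`, with the product truncated at `z`. -/
noncomputable def S (a b c : ℤ) (z : ℕ) : ℝ :=
  ∏ p ∈ (Icc 1 z).filter Nat.Prime, (1 - (omega a b c p : ℝ) / p) / (1 - 1 / (p : ℝ))

/-- The number of the `m`, `1 ≤ m ≤ y`, for which `f(m)` is a prime. -/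
def count (a b c : ℤ) (y : ℕ) : ℕ := ((Icc 1 y).filter (fun m : ℕ => (f a b c m).toNat.Prime)).card

/-- The number of these `m` which is predicted. -/
noncomputable def predicted (a b c : ℤ) (z y : ℕ) : ℝ :=
  S a b c z * ∑ m ∈ Icc 1 y, 1 / Real.log ((f a b c m : ℤ) : ℝ)

/-- The conclusion for one constant term `c`. -/
def Good (a b : ℤ) (C X z : ℕ) (c : ℤ) : Prop :=
  ((∀ p : ℕ, p.Prime → ∃ m : ℕ, ¬ (p : ℤ) ∣ f a b c m) →
    ∃ m : ℕ, 1 ≤ m ∧ m ^ 2 ≤ X ∧ (f a b c m).toNat.Prime) ∧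
  ∀ y : ℕ, y ^ 2 ≤ X → |(count a b c y : ℝ) - predicted a b c z y| ≤ Real.sqrt X / Real.log X ^ C

open Classical in
/-- The number of the integers `1 ≤ c ≤ X`, `c ≡ c₀ (mod q)`, for which the conclusion fails. -/
noncomputable def exceptions (a b : ℤ) (C X z q : ℕ) (c₀ : ℤ) : ℕ :=
  ((Icc 1 (X : ℤ)).filter (fun c : ℤ => c ≡ c₀ [ZMOD q] ∧ ¬ Good a b C X z c)).card

theorem result (a b : ℤ) (ha : 0 < a) (ρ : ℝ) (hρ : 0 < ρ) (A C T : ℕ) :
    ∃ B : ℕ, ∀ E : ℕ, ∃ X₀ : ℕ, ∀ X : ℕ, X₀ ≤ X →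
      ∀ z : ℕ, Real.log X ^ B ≤ z → (z : ℝ) ≤ Real.log X ^ E →
      ∀ q : ℕ, 1 ≤ q → (q : ℝ) ≤ (X : ℝ) ^ (1 / 2 - ρ) → (q.divisors.card : ℝ) ≤ Real.log X ^ T →
      ∀ c₀ : ℤ, (Int.gcd (b ^ 2 - 4 * a * c₀) q : ℝ) ≤ Real.log X ^ T →
        (exceptions a b C X z q c₀ : ℝ) ≤ X / (q * Real.log X ^ A) := by
  classical
  obtain ⟨B, hB⟩ := Pool.Agent.R460.SB.fin_unw (b := b) ha ρ hρ A C T
  refine ⟨B, fun E => ?_⟩
  obtain ⟨X₀, h0⟩ := hB E
  refine ⟨X₀, fun X hX z hz1 hz2 q hq1 hqX hτ c₀ hb => ?_⟩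
  have h2 := h0 X hX z hz1 hz2 q hq1 hqX hτ c₀ hb
  refine le_trans (le_of_eq ?_) h2
  unfold exceptions
  have hf : ∀ (c : ℤ) (t : ℕ), Pool.Agent.R460.SB.fv (-a) (-b) c t = f a b c t := by
    intro c t
    unfold Pool.Agent.R460.SB.fv f
    ring
  have hr : ∀ (c : ℤ) (p : ℕ), Pool.Agent.H373R2.T7.nuB (Pool.Agent.R460.SB.QS (-a) (-b) c) p = omega a b c p := by
    intro c p
    unfold omega Pool.Agent.H373R2.T7.nuB Pool.Agent.R460.SB.QS
    have e : ∀ m : ℕ, ((p : ℤ) ∣ c - (-a * (m : ℤ) ^ 2 + -b * (m : ℤ))) ↔ (p : ℤ) ∣ f a b c m := by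
      intro m
      have e1 := hf c m
      unfold Pool.Agent.R460.SB.fv at e1
      rw [e1]
    congr 1
    ext m
    simp only [mem_filter, e]
  have hs : ∀ c : ℤ, Pool.Agent.R460.SB.Sz (-a) (-b) c z = S a b c z := by
    intro c
    rw [Pool.Agent.R460.SB.Sz_prod]
    unfold S Pool.Agent.H373R2.T7.pz
    refine prod_congr rfl fun p _ => ?_
    rw [hr]
  have hg : ∀ c : ℤ, Good a b C X z c ↔ Pool.Agent.R460.SB.GoodU a b C X z c := by
    intro c
    unfold Good Pool.Agent.R460.SB.GoodU count predicted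
    simp only [hs, hf]
  congr 2
  ext n
  rw [mem_filter, mem_filter, hg]

end Pool.Agent.Results.MP_a1177c_nt.AlmostAllConstantTerms
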