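import Pool.Agent.R460.GR.Conv

/-!
# Small prime summands in Goldbach representations in ALL residue classes, in particular for the multiples, of the
moduli up to `x ^ (7 / 10 - ρ)` which are not divisible by one of few large integers

There is a set `D` of at most `(log x) ^ c` integers, all of them larger than any given power of `log x`, such that
for every modulus `q ≤ x ^ (7 / 10 - ρ)` which is not divisible by a member of `D`, and EVERY residue class `a`
modulo `q` (for instance `a = 0`: the multiples of `q`), all but at most `x / (q (log x)^B)` of the even integers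
`m ≤ x`, `m ≡ a (mod q)`, are sums of two primes one of which is at most `m / (log m)^A`, that is
`g(m) ≤ m / (log m)^A` in the notation of the problem. Moreover in every window of a length of at least
`m / (log m)^A` there is at least one twentieth of the expected number of Goldbach pairs.

Definition used (in `Pool.Agent.H560R3.GB`): `sing m = 2 C₂ ∏_{p ∣ m, p > 2} (p - 1) / (p - 2)`, the singular series,
where `C₂ = ∏_{p > 2} (1 - 1 / (p - 1) ^ 2)` is the twin prime constant.

Proof (`R460/GS`, `R460/GR`): see the hand-in ModuliUpToSevenTenths of the problem on the multiples of `q`; the bad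
characters are induced by at most `(log N) ^ c` primitive characters, whose conductors (divided by small factors)
are the members of `D`.
-/

set_option autoImplicit false

namespace Pool.Agent.Results.MP_bae66e_nt.AllClassesRegularModuli

open Finset
open Pool.Agent.H560R3.GB (sing)

/-- The number of primes `p` with `y₁ < p ≤ y₂` such that `m - p` is a prime. -/
def cnt (m y₁ y₂ : ℕ) : ℕ := ((Ioc y₁ y₂).filter (fun p => p.Prime ∧ (m - p).Prime)).card

/-- (1) There is a prime `p ≤ m / log ^ A m` such that `m - p` is a prime (thus `g(m) ≤ m / log ^ A m`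
in the notation of the problem); (2) in every window `(y₁, y₂] ⊆ (0, m]` of a length of at least
`m / log ^ A m` the number of primes `p` such that `m - p` is a prime is at least one twentieth of the
expected number `sing m * (y₂ - y₁) / log ^ 2 m`. -/
def Holds (A m : ℕ) : Prop :=
  (∃ p : ℕ, p.Prime ∧ (m - p).Prime ∧ (p : ℝ) ≤ m / Real.log m ^ A) ∧
  ∀ y₁ y₂ : ℕ, y₁ < y₂ → y₂ ≤ m → (m : ℝ) / Real.log m ^ A ≤ (y₂ : ℝ) - y₁ →
    1 / 20 * (sing m * ((y₂ : ℝ) - y₁) / Real.log m ^ 2) ≤ (cnt m y₁ y₂ : ℝ)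

/-- The even integers `0 < m ≤ x` with `m ≡ a (mod q)` for which `Holds A m` is false. -/
def exceptional (A : ℕ) (x : ℝ) (q : ℕ) (a : ℤ) : Set ℕ :=
  {m : ℕ | 0 < m ∧ (m : ℝ) ≤ x ∧ 2 ∣ m ∧ (m : ℤ) ≡ a [ZMOD q] ∧ ¬ Holds A m}

theorem holds_of (A : ℕ) : ∃ m₀ : ℕ, ∀ m : ℕ, m₀ ≤ m → 2 ∣ m → Pool.Agent.R460.GS.WinL (A + 1) m → Holds A m := by
  obtain ⟨n1, hn1⟩ := Filter.eventually_atTop.1
    (Pool.Agent.Y614.GJ.Core.ev_log (A + 1) (s := 1) one_pos 4)
  refine ⟨n1 + 3, fun m hm _ hw => ?_⟩
  obtain ⟨hL4, hLp⟩ := hn1 m (by omega)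
  rw [Real.rpow_one] at hLp
  have hL1 : 1 ≤ Real.log m := by linarith
  have hL0 : 0 < Real.log m := by linarith
  have hw' := Pool.Agent.R460.GS.winL_mono (Nat.le_succ A) hL1 hw
  refine ⟨?_, hw'⟩
  have hm0 : (0 : ℝ) < m := by exact_mod_cast (by omega : 0 < m)
  obtain ⟨y, hy⟩ : ∃ y, y = ⌊(m : ℝ) / Real.log m ^ A⌋₊ := ⟨_, rfl⟩
  have hyle : (y : ℝ) ≤ m / Real.log m ^ A := by rw [hy]; exact Nat.floor_le (by positivity)
  have hylt : (m : ℝ) / Real.log m ^ A < y + 1 := by rw [hy]; exact Nat.lt_floor_add_one _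
  have h1 : 1 ≤ (m : ℝ) / Real.log m ^ (A + 1) := by
    rw [le_div_iff₀ (by positivity), one_mul]
    exact hLp
  have h2 : (m : ℝ) / Real.log m ^ A = m / Real.log m ^ (A + 1) * Real.log m := by
    rw [pow_succ]
    field_simp
  have h3 : (m : ℝ) / Real.log m ^ (A + 1) ≤ y := by nlinarith
  have hy0 : 0 < y := by
    have : (0 : ℝ) < y := by linarith
    exact_mod_cast this
  have hym : y ≤ m := by
    have : (y : ℝ) ≤ m := hyle.trans (div_le_self hm0.le (one_le_pow₀ hL1))
    exact_mod_cast this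
  have h4 := hw 0 y hy0 hym (by push_cast; linarith)
  have hs := Pool.Agent.R460.GS.one_le_sing m
  have hyr : (0 : ℝ) < y := by exact_mod_cast hy0
  have h5 : 0 < 1 / 20 * (sing m * ((y : ℝ) - ((0 : ℕ) : ℝ)) / Real.log m ^ 2) := by
    push_cast
    rw [sub_zero]
    positivity
  have h6 : (0 : ℝ) < (Pool.Agent.W93.PG.cnt m 0 y : ℝ) := lt_of_lt_of_le h5 h4
  have h7 : 0 < Pool.Agent.W93.PG.cnt m 0 y := by exact_mod_cast h6
  unfold Pool.Agent.W93.PG.cnt at h7
  rw [card_pos] at h7
  obtain ⟨p, hp⟩ := h7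
  rw [mem_filter, mem_Ioc] at hp
  refine ⟨p, hp.2.1, hp.2.2, le_trans ?_ hyle⟩
  exact_mod_cast hp.1.2

/-- For all `ρ > 0`, `A` and `B` there is `c` such that for all `E` and all sufficiently large real `x` there is a
finite set `D` of at most `(log x) ^ c` integers, all of them larger than `(log x) ^ E`, such that for every integer
`1 ≤ q ≤ x ^ (7 / 10 - ρ)` which is not divisible by a member of `D` and for EVERY integer `a`, all but at most
`x / (q (log x)^B)` of the even integers `0 < m ≤ x`, `m ≡ a (mod q)`, have the property `Holds A m`. -/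
theorem result (ρ : ℝ) (hρ : 0 < ρ) (A B : ℕ) :
    ∃ c : ℕ, ∀ E : ℕ, ∃ x₀ : ℝ, ∀ x : ℝ, x₀ ≤ x → ∃ D : Finset ℕ, (D.card : ℝ) ≤ Real.log x ^ c ∧
      (∀ d ∈ D, Real.log x ^ E < (d : ℝ)) ∧
      ∀ q : ℕ, 1 ≤ q → (q : ℝ) ≤ x ^ (7 / 10 - ρ) → (∀ d ∈ D, ¬ d ∣ q) → ∀ a : ℤ,
        (exceptional A x q a).Finite ∧ ((exceptional A x q a).ncard : ℝ) ≤ x / (q * Real.log x ^ B) :=
  Pool.Agent.R460.GR.class_few_reg (Holds A) (A + 1) (holds_of A) ρ hρ B

end Pool.Agent.Results.MP_bae66e_nt.AllClassesRegularModuli
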